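import Pool.Agent.WR4.Stmts
import Pool.Agent.Helper33_WR3.HAR

/-!
WR4, row SUB: the total distance on the typical integers is almost subharmonic.
-/

namespace Pool.Agent.WR4.H15

open Pool.Agent.WIR Pool.Agent.WR2 Pool.Agent.WR3 Pool.Agent.WR4
open scoped BigOperators
open Filter

theorem mu_nonneg (a : ℕ) (y : ℝ) (c : ℕ) : 0 ≤ mu a y c := by
  unfold mu
  exact Nat.cast_nonneg _

theorem tf_mem {X a : ℕ} (h : a ∈ TF X) : 1 ≤ a ∧ a ≤ X := by
  classical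
  unfold TF at h
  exact Finset.mem_Icc.1 (Finset.mem_filter.1 h).1

theorem tf_card (X : ℕ) : (TF X).card ≤ X := by
  have h1 : (TF X).card ≤ (Finset.Icc 1 X).card := by
    refine Finset.card_le_card fun a ha => ?_
    exact Finset.mem_Icc.2 (tf_mem ha)
  rwa [Nat.card_Icc, Nat.add_sub_cancel] at h1

theorem sub_main (TMU : TmuStmt) (SMU : SmuStmt) (PRD : PrdStmt) (X t : ℕ) (hX : 1 ≤ X) (x : ℝ)
    (hx : 2 ^ (t + 1) ≤ x) :
    ∑ a ∈ TF X, |GS a (mu a) (t + 1) x - GS a (mu a) t (x / 2) - GS a (mu a) t (3 * x / 2) / 3|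
      ≤ (Nat.log 2 X : ℝ) * (X * x / 2 ^ t)
        * ∑ l ∈ Finset.range (t + 2), ∑ a ∈ Finset.Icc 1 (3 ^ l), |dl t l a| := by
  have h2t : (0 : ℝ) < 2 ^ t := by positivity
  have hx0 : 0 < x := lt_of_lt_of_le (by positivity) hx
  have hX1 : (1 : ℝ) ≤ X := by exact_mod_cast hX
  have hstep : ∀ a ∈ TF X,
      |GS a (mu a) (t + 1) x - GS a (mu a) t (x / 2) - GS a (mu a) t (3 * x / 2) / 3|
      ≤ ∑ l ∈ Finset.range (t + 2), ∑ c ∈ Finset.Icc 1 ⌊(X : ℝ) * (3 ^ l * x / 2 ^ (t + 1))⌋₊,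
          mu a (3 ^ l * x / 2 ^ (t + 1)) c * |dl t l c| := by
    intro a ha
    have haX : (a : ℝ) ≤ X := by exact_mod_cast (tf_mem ha).2
    rw [Pool.Agent.WR3.H33.gs_diff SMU (a : ℝ) (mu a) t x]
    refine (Finset.abs_sum_le_sum_abs _ _).trans (Finset.sum_le_sum fun l _ => ?_)
    refine (Finset.abs_sum_le_sum_abs _ _).trans ?_
    have h1 : ∀ c ∈ Finset.Icc 1 ⌊(a : ℝ) * (3 ^ l * x / 2 ^ (t + 1))⌋₊,
        |mu a (3 ^ l * x / 2 ^ (t + 1)) c * dl t l c|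
          = mu a (3 ^ l * x / 2 ^ (t + 1)) c * |dl t l c| := by
      intro c _
      rw [abs_mul, abs_of_nonneg (mu_nonneg _ _ _)]
    rw [Finset.sum_congr rfl h1]
    refine Finset.sum_le_sum_of_subset_of_nonneg ?_ ?_
    · apply Finset.Icc_subset_Icc_right
      apply Nat.floor_le_floor
      have : (0 : ℝ) ≤ 3 ^ l * x / 2 ^ (t + 1) := by positivity
      exact mul_le_mul_of_nonneg_right haX this
    · intro c _ _
      exact mul_nonneg (mu_nonneg _ _ _) (abs_nonneg _)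
  refine (Finset.sum_le_sum hstep).trans ?_
  rw [Finset.sum_comm, Finset.mul_sum]
  refine Finset.sum_le_sum fun l _ => ?_
  rw [Finset.sum_comm]
  have h1 : ∀ c ∈ Finset.Icc 1 ⌊(X : ℝ) * (3 ^ l * x / 2 ^ (t + 1))⌋₊,
      ∑ a ∈ TF X, mu a (3 ^ l * x / 2 ^ (t + 1)) c * |dl t l c|
        ≤ (Nat.log 2 X : ℝ) * |dl t l c| := by
    intro c _
    rw [← Finset.sum_mul]
    exact mul_le_mul_of_nonneg_right ((TMU X c).2.2 _) (abs_nonneg _)
  refine (Finset.sum_le_sum h1).trans ?_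
  rw [← Finset.mul_sum, mul_assoc]
  refine mul_le_mul_of_nonneg_left ?_ (Nat.cast_nonneg _)
  have h2 := (PRD l (fun a => |dl t l a|) (fun a => abs_nonneg _)
    (fun a ha => by rw [Pool.Agent.WR3.H33.dl_per SMU t l a ha])).1
      ((X : ℝ) * (3 ^ l * x / 2 ^ (t + 1))) (by positivity)
  have h3 : (X : ℝ) * (3 ^ l * x / 2 ^ (t + 1)) / 3 ^ l + 1 ≤ X * x / 2 ^ t := by
    have e1 : (X : ℝ) * (3 ^ l * x / 2 ^ (t + 1)) / 3 ^ l = X * x / 2 ^ t / 2 := by
      rw [pow_succ]; field_simp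
    have e2 : (1 : ℝ) ≤ X * x / 2 ^ t / 2 := by
      rw [le_div_iff₀ (by norm_num), le_div_iff₀ h2t]
      rw [pow_succ] at hx
      nlinarith
    rw [e1]
    linarith
  have hP : 0 ≤ ∑ a ∈ Finset.Icc 1 (3 ^ l), |dl t l a| := Finset.sum_nonneg fun a _ => abs_nonneg _
  exact h2.trans (mul_le_mul_of_nonneg_right h3 hP)

theorem sub (TMU : TmuStmt) (SMU : SmuStmt) (DEL : DelStmt) (PRD : PrdStmt) (_RMU : RmuStmt)
    (RTY : RtyStmt) : SubStmt := by
  intro p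
  obtain ⟨C, hC1, hC⟩ := DEL (p + 1)
  refine ⟨400 * C * 24 ^ (p + 1) + 3 * (2 * 12 ^ p * (p.factorial : ℝ)), 2 ^ 12, by positivity,
    by norm_num, ?_⟩
  intro X θ x hX hx hXx
  have hX1 : (1 : ℝ) ≤ X := by exact_mod_cast hX
  have hx0 : (0 : ℝ) < x := lt_of_lt_of_le (by norm_num) hx
  -- the choice of t
  set N := Nat.log 2 ⌊x⌋₊ with hN
  have hfl : ⌊x⌋₊ ≠ 0 := by
    have : 2 ^ 12 ≤ ⌊x⌋₊ := Nat.le_floor (by exact_mod_cast hx)
    omega
  have hN1 : (2 : ℝ) ^ N ≤ x := by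
    have h1 : 2 ^ N ≤ ⌊x⌋₊ := Nat.pow_log_le_self 2 hfl
    have h2 : ((2 ^ N : ℕ) : ℝ) ≤ ⌊x⌋₊ := by exact_mod_cast h1
    have h3 := Nat.floor_le hx0.le
    push_cast at h2
    linarith
  have hN2 : x < 2 ^ (N + 1) := by
    have h1 : ⌊x⌋₊ < 2 ^ (N + 1) := Nat.lt_pow_succ_log_self (by norm_num) _
    have h2 : x < ((2 ^ (N + 1) : ℕ) : ℝ) := (Nat.floor_lt hx0.le).1 h1
    push_cast at h2
    exact h2
  have hN12 : 12 ≤ N := by
    apply Nat.le_log_of_pow_le (by norm_num)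
    exact Nat.le_floor (by exact_mod_cast hx)
  obtain ⟨t, ht1, ht2⟩ : ∃ t : ℕ, 12 * (t + 1) ≤ N ∧ N + 1 ≤ 12 * (t + 2) :=
    ⟨N / 12 - 1, by omega, by omega⟩
  have hxt1 : ((2 : ℝ) ^ (t + 1)) ^ 12 ≤ x := by
    rw [← pow_mul]
    exact (pow_le_pow_right₀ (by norm_num) (by omega)).trans hN1
  have hxt2 : x ≤ 2 ^ (12 * (t + 2)) := hN2.le.trans (pow_le_pow_right₀ (by norm_num) ht2)
  have h2t1 : (1 : ℝ) ≤ 2 ^ (t + 1) := one_le_pow₀ (by norm_num)
  have hxt3 : (2 : ℝ) ^ (t + 1) ≤ x := by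
    refine le_trans ?_ hxt1
    exact le_self_pow₀ h2t1 (by norm_num)
  have hlog2 : 0 < Real.log 2 := Real.log_pos (by norm_num)
  have hlog2' : Real.log 2 ≤ 1 := by
    have := Real.log_two_lt_d9
    linarith
  have hlog2h : 1 / 2 ≤ Real.log 2 := by
    have := Real.log_two_gt_d9
    linarith
  have hlogx : Real.log x ≤ 12 * (((t : ℝ) + 2) * Real.log 2) := by
    have := Real.log_le_log hx0 hxt2
    rw [Real.log_pow] at this
    push_cast at this
    linarith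
  have hx1 : (1 : ℝ) < x := lt_of_lt_of_le (by norm_num) hx
  have hlogpos : 0 < Real.log x := Real.log_pos hx1
  have hlogx2 : Real.log x ≤ 24 * ((t : ℝ) + 1) := by
    have ht0 : (0 : ℝ) ≤ t := Nat.cast_nonneg t
    have : ((t : ℝ) + 2) * Real.log 2 ≤ ((t : ℝ) + 2) * 1 :=
      mul_le_mul_of_nonneg_left hlog2' (by linarith)
    linarith
  have hlp : 0 < Real.log x ^ p := pow_pos hlogpos p
  have hlogp : Real.log x ^ p ≤ 2 * 12 ^ p * (p.factorial : ℝ) * 2 ^ (t + 1) := by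
    have h1 : Real.log x ^ p ≤ (12 * (((t : ℝ) + 2) * Real.log 2)) ^ p :=
      pow_le_pow_left₀ hlogpos.le hlogx p
    have h2 : (((t : ℝ) + 2) * Real.log 2) ^ p / (p.factorial : ℝ)
        ≤ Real.exp (((t : ℝ) + 2) * Real.log 2) :=
      Real.pow_div_factorial_le_exp _ (by positivity) p
    have h3 : Real.exp (((t : ℝ) + 2) * Real.log 2) = 2 ^ (t + 2) := by
      rw [mul_comm, Real.exp_mul, Real.exp_log (by norm_num)]
      exact_mod_cast Real.rpow_natCast 2 (t + 2)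
    rw [h3, div_le_iff₀ (by positivity)] at h2
    calc Real.log x ^ p ≤ (12 * (((t : ℝ) + 2) * Real.log 2)) ^ p := h1
      _ = 12 ^ p * (((t : ℝ) + 2) * Real.log 2) ^ p := mul_pow _ _ _
      _ ≤ 12 ^ p * (2 ^ (t + 2) * (p.factorial : ℝ)) := by gcongr
      _ = _ := by rw [pow_succ (2 : ℝ) (t + 1)]; ring
  have herr : (2 : ℝ) ^ (t + 1) ≤ 2 * 12 ^ p * (p.factorial : ℝ) * (x / Real.log x ^ p) := by
    have h0 : (2 : ℝ) ^ (t + 1) * 2 ^ (t + 1) ≤ x := by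
      calc (2 : ℝ) ^ (t + 1) * 2 ^ (t + 1) = (2 ^ (t + 1)) ^ 2 := by ring
        _ ≤ (2 ^ (t + 1)) ^ 12 := pow_le_pow_right₀ h2t1 (by norm_num)
        _ ≤ x := hxt1
    have h1 : (2 : ℝ) ^ (t + 1) ≤ x / 2 ^ (t + 1) := by
      rw [le_div_iff₀ (by positivity)]
      exact h0
    refine h1.trans ?_
    rw [← mul_div_assoc, div_le_div_iff₀ (by positivity) hlp]
    calc x * Real.log x ^ p ≤ x * (2 * 12 ^ p * (p.factorial : ℝ) * 2 ^ (t + 1)) := by gcongr
      _ = _ := by ring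
  -- the bound for the logarithm of X
  have hK : (Nat.log 2 X : ℝ) ≤ 400 * Real.log x := by
    have h1 : ((2 ^ Nat.log 2 X : ℕ) : ℝ) ≤ X := by
      exact_mod_cast Nat.pow_log_le_self 2 (by omega : X ≠ 0)
    have h2 : (2 : ℝ) ^ Nat.log 2 X ≤ x ^ 200 := by
      push_cast at h1
      exact h1.trans hXx
    have h3 := Real.log_le_log (by positivity) h2
    rw [Real.log_pow, Real.log_pow] at h3
    push_cast at h3
    have h4 : (Nat.log 2 X : ℝ) * (1 / 2) ≤ (Nat.log 2 X : ℝ) * Real.log 2 :=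
      mul_le_mul_of_nonneg_left hlog2h (Nat.cast_nonneg _)
    linarith
  -- main term
  have hmain := sub_main TMU SMU PRD X t hX x hxt3
  have hmain2 : ∑ a ∈ TF X,
      |GS a (mu a) (t + 1) x - GS a (mu a) t (x / 2) - GS a (mu a) t (3 * x / 2) / 3|
      ≤ 400 * C * 24 ^ (p + 1) * (X * (x / Real.log x ^ p)) := by
    refine hmain.trans ?_
    have h1 : (Nat.log 2 X : ℝ) * (X * x / 2 ^ t)
        * ∑ l ∈ Finset.range (t + 2), ∑ a ∈ Finset.Icc 1 (3 ^ l), |dl t l a|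
        ≤ (400 * Real.log x) * (X * x / 2 ^ t) * (C * 2 ^ t / ((t : ℝ) + 1) ^ (p + 1)) := by
      have := hC t
      gcongr
    refine h1.trans ?_
    have ht1' : (0 : ℝ) < (t : ℝ) + 1 := by positivity
    have h2 : (400 * Real.log x) * (X * x / 2 ^ t) * (C * 2 ^ t / ((t : ℝ) + 1) ^ (p + 1))
        = 400 * C * X * x * Real.log x / ((t : ℝ) + 1) ^ (p + 1) := by
      field_simp
    rw [h2]
    have h4 : 400 * C * 24 ^ (p + 1) * (X * (x / Real.log x ^ p))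
        = 400 * C * 24 ^ (p + 1) * (X * x) / Real.log x ^ p := by
      field_simp
    rw [h4, div_le_div_iff₀ (by positivity) hlp]
    have h3 : Real.log x ^ (p + 1) ≤ 24 ^ (p + 1) * ((t : ℝ) + 1) ^ (p + 1) := by
      rw [← mul_pow]
      exact pow_le_pow_left₀ hlogpos.le hlogx2 _
    calc 400 * C * X * x * Real.log x * Real.log x ^ p
        = 400 * C * X * x * Real.log x ^ (p + 1) := by ring
      _ ≤ 400 * C * X * x * (24 ^ (p + 1) * ((t : ℝ) + 1) ^ (p + 1)) := by gcongr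
      _ = _ := by ring
  -- single terms
  have hterm : ∀ a ∈ TF X, |FR a x - θ a * x| ≤ |FR a (x / 2) - θ a * (x / 2)|
      + |FR a (3 * x / 2) - θ a * (3 * x / 2)| / 3
      + (|GS a (mu a) (t + 1) x - GS a (mu a) t (x / 2) - GS a (mu a) t (3 * x / 2) / 3|
        + 3 * 2 ^ (t + 1)) := by
    intro a ha
    have ha1 : 0 < a := (tf_mem ha).1
    have e1 := RTY a ha1 (t + 1) x hx0.le
    have e2 := RTY a ha1 t (x / 2) (by positivity)
    have e3 := RTY a ha1 t (3 * x / 2) (by positivity)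
    have h2 : (2 : ℝ) ^ t ≤ 2 ^ (t + 1) := pow_le_pow_right₀ (by norm_num) (by omega)
    have h20 : (0 : ℝ) < 2 ^ t := by positivity
    have f1 := le_abs_self (FR a (x / 2) - θ a * (x / 2))
    have f2 := neg_abs_le (FR a (x / 2) - θ a * (x / 2))
    have f3 := le_abs_self (FR a (3 * x / 2) - θ a * (3 * x / 2))
    have f4 := neg_abs_le (FR a (3 * x / 2) - θ a * (3 * x / 2))
    have f5 := le_abs_self
      (GS a (mu a) (t + 1) x - GS a (mu a) t (x / 2) - GS a (mu a) t (3 * x / 2) / 3)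
    have f6 := neg_abs_le
      (GS a (mu a) (t + 1) x - GS a (mu a) t (x / 2) - GS a (mu a) t (3 * x / 2) / 3)
    rw [abs_le] at e1 e2 e3
    rw [abs_le]
    constructor <;> linarith [e1.1, e1.2, e2.1, e2.2, e3.1, e3.2]
  -- sum
  have hsum := Finset.sum_le_sum hterm
  rw [Finset.sum_add_distrib, Finset.sum_add_distrib, Finset.sum_add_distrib, ← Finset.sum_div,
    Finset.sum_const, nsmul_eq_mul] at hsum
  have hcard : ((TF X).card : ℝ) * (3 * 2 ^ (t + 1))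
      ≤ 3 * (2 * 12 ^ p * (p.factorial : ℝ)) * (X * (x / Real.log x ^ p)) := by
    calc ((TF X).card : ℝ) * (3 * 2 ^ (t + 1)) ≤ X * (3 * 2 ^ (t + 1)) := by
          gcongr
          exact tf_card X
      _ ≤ X * (3 * (2 * 12 ^ p * (p.factorial : ℝ) * (x / Real.log x ^ p))) := by gcongr
      _ = _ := by ring
  have e : (400 * C * 24 ^ (p + 1) + 3 * (2 * 12 ^ p * (p.factorial : ℝ))) * X * x / Real.log x ^ p
      = 400 * C * 24 ^ (p + 1) * (X * (x / Real.log x ^ p))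
        + 3 * (2 * 12 ^ p * (p.factorial : ℝ)) * (X * (x / Real.log x ^ p)) := by ring
  rw [e]
  unfold GX
  linarith

end Pool.Agent.WR4.H15
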