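import Pool.Agent.WR4.StmtsB

/-!
WR4, row SYM: the Syracuse densities dominate the densities `W`, and the difference is small in the mean.
-/

namespace Pool.Agent.WR4.H15

open Pool.Agent.WIR Pool.Agent.WR2 Pool.Agent.WR3 Pool.Agent.WR4
open scoped BigOperators Topology
open Filter

theorem sym_cnt (M N : ℕ) (S : Set ℕ) (x : ZMod (3 ^ N)) [DecidablePred (fun O : Finset ℕ =>
      O.card ∈ S ∧ FO N O = x)] :
    cnt M S N x = ((Finset.Icc 1 M).powerset.filter
      (fun O => O.card ∈ S ∧ FO N O = x)).card := by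
  unfold cnt
  refine congrArg Finset.card ?_
  ext O
  simp only [Finset.mem_filter]

theorem sym_pow (n k : ℕ) (h : n ≤ k) : (3 : ZMod (3 ^ n)) ^ k = 0 := by
  have h1 : ((3 ^ n : ℕ) : ZMod (3 ^ n)) = 0 := ZMod.natCast_self _
  obtain ⟨j, rfl⟩ := Nat.exists_eq_add_of_le h
  rw [pow_add]
  have h2 : (3 : ZMod (3 ^ n)) ^ n = 0 := by exact_mod_cast h1
  rw [h2, zero_mul]

/-- a new last element of high rank does not change `FO`. -/
theorem sym_ins (n M : ℕ) (O : Finset ℕ) (hO : O ⊆ Finset.Icc 1 M) (hn : n ≤ O.card) :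
    FO n (insert (M + 1) O) = FO n O := by
  classical
  have hlt : ∀ q ∈ O, q < M + 1 := fun q hq => by
    have := (Finset.mem_Icc.1 (hO hq)).2
    omega
  have hnot : M + 1 ∉ O := fun h => lt_irrefl _ (hlt _ h)
  unfold FO
  rw [Finset.sum_insert hnot]
  have h1 : rk (insert (M + 1) O) (M + 1) = O.card := by
    unfold rk
    rw [Finset.filter_insert, if_neg (lt_irrefl _), Finset.filter_true_of_mem hlt]
  have h2 : ∀ p ∈ O, rk (insert (M + 1) O) p = rk O p := by
    intro p hp
    unfold rk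
    rw [Finset.filter_insert, if_neg (by have := hlt p hp; omega)]
  rw [h1, sym_pow n _ hn, zero_mul, zero_add]
  exact Finset.sum_congr rfl fun p hp => by rw [h2 p hp]

theorem sym_mono (n M : ℕ) (z : ZMod (3 ^ n)) :
    2 * cnt M (Set.Ici n) n z ≤ cnt (M + 1) (Set.Ici n) n z := by
  classical
  rw [sym_cnt, sym_cnt]
  set A := (Finset.Icc 1 M).powerset.filter (fun O => O.card ∈ Set.Ici n ∧ FO n O = z) with hA
  have hAm : ∀ O ∈ A, O ⊆ Finset.Icc 1 M ∧ n ≤ O.card ∧ FO n O = z := by
    intro O hO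
    rw [hA, Finset.mem_filter, Finset.mem_powerset] at hO
    exact ⟨hO.1, hO.2.1, hO.2.2⟩
  have hnot : ∀ O ∈ A, M + 1 ∉ O := by
    intro O hO h
    have := (Finset.mem_Icc.1 ((hAm O hO).1 h)).2
    omega
  have hd : Disjoint A (A.image (fun O => insert (M + 1) O)) := by
    rw [Finset.disjoint_left]
    intro O hO hO2
    obtain ⟨O', _, h⟩ := Finset.mem_image.1 hO2
    apply hnot O hO
    rw [← h]
    exact Finset.mem_insert_self _ _
  have hsub : A ∪ A.image (fun O => insert (M + 1) O) ⊆ (Finset.Icc 1 (M + 1)).powerset.filter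
      (fun O => O.card ∈ Set.Ici n ∧ FO n O = z) := by
    have hI : Finset.Icc 1 M ⊆ Finset.Icc 1 (M + 1) := Finset.Icc_subset_Icc_right (by omega)
    intro O hO
    rw [Finset.mem_filter, Finset.mem_powerset]
    rcases Finset.mem_union.1 hO with h | h
    · obtain ⟨h1, h2, h3⟩ := hAm O h
      exact ⟨h1.trans hI, h2, h3⟩
    · obtain ⟨O', h', rfl⟩ := Finset.mem_image.1 h
      obtain ⟨h1, h2, h3⟩ := hAm O' h'
      refine ⟨Finset.insert_subset (Finset.mem_Icc.2 ⟨by omega, le_rfl⟩) (h1.trans hI), ?_, ?_⟩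
      · rw [Set.mem_Ici, Finset.card_insert_of_notMem (hnot O' h')]
        omega
      · rw [sym_ins n M O' h1 h2, h3]
  have hinj : (A.image (fun O => insert (M + 1) O)).card = A.card := by
    apply Finset.card_image_of_injOn
    intro u hu v hv huv
    simp only at huv
    have h := congrArg (fun s => Finset.erase s (M + 1)) huv
    rwa [Finset.erase_insert (hnot u hu), Finset.erase_insert (hnot v hv)] at h
  have h := Finset.card_le_card hsub
  rw [Finset.card_union_of_disjoint hd, hinj] at h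
  omega

/-- the total number. -/
theorem sym_tot (n M : ℕ) : ∑ z : ZMod (3 ^ n), cnt M (Set.Ici n) n z
    = ((Finset.Icc 1 M).powerset.filter (fun O => n ≤ O.card)).card := by
  classical
  rw [Finset.card_eq_sum_card_fiberwise (f := fun O => FO n O) (t := Finset.univ)
    (fun O _ => Finset.mem_coe.2 (Finset.mem_univ _))]
  refine Finset.sum_congr rfl fun z _ => ?_
  rw [sym_cnt, Finset.filter_filter]
  refine congrArg Finset.card (Finset.filter_congr fun O _ => ?_)
  rfl

theorem sym_few (S : Finset ℕ) (n : ℕ) :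
    (S.powerset.filter (fun O => O.card < n)).card ≤ ∑ r ∈ Finset.range n, S.card.choose r := by
  classical
  have h1 : S.powerset.filter (fun O => O.card < n) ⊆
      (Finset.range n).biUnion (fun r => S.powersetCard r) := by
    intro O hO
    rw [Finset.mem_filter, Finset.mem_powerset] at hO
    rw [Finset.mem_biUnion]
    exact ⟨O.card, Finset.mem_range.2 hO.2, Finset.mem_powersetCard.2 ⟨hO.1, rfl⟩⟩
  refine (Finset.card_le_card h1).trans (Finset.card_biUnion_le.trans ?_)
  refine Finset.sum_le_sum fun r _ => ?_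
  rw [Finset.card_powersetCard]

theorem sym_le_one (n M : ℕ) : (∑ z : ZMod (3 ^ n), (cnt M (Set.Ici n) n z : ℝ) / 2 ^ M) ≤ 1 := by
  classical
  rw [← Finset.sum_div, div_le_one (by positivity)]
  have h1 := sym_tot n M
  have h2 : ((Finset.Icc 1 M).powerset.filter (fun O => n ≤ O.card)).card ≤ 2 ^ M := by
    refine (Finset.card_filter_le _ _).trans ?_
    rw [Finset.card_powerset, Nat.card_Icc, Nat.add_sub_cancel]
  rw [← h1] at h2
  exact_mod_cast h2

theorem sym_ge (HOE : HoeStmt) (n : ℕ) :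
    1 - Real.exp (-((n : ℝ) / 6)) ≤ ∑ z : ZMod (3 ^ n), (cnt (3 * n) (Set.Ici n) n z : ℝ) / 2 ^ (3 * n) := by
  classical
  rw [← Finset.sum_div, le_div_iff₀ (by positivity)]
  have h1 := sym_tot n (3 * n)
  have h2 : ((Finset.Icc 1 (3 * n)).powerset.filter (fun O => n ≤ O.card)).card
      + ((Finset.Icc 1 (3 * n)).powerset.filter (fun O => O.card < n)).card = 2 ^ (3 * n) := by
    have h3 := Finset.card_filter_add_card_filter_not (s := (Finset.Icc 1 (3 * n)).powerset)
      (fun O => n ≤ O.card)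
    rw [Finset.card_powerset, Nat.card_Icc, Nat.add_sub_cancel] at h3
    rw [← h3]
    congr 2
    refine Finset.filter_congr fun O _ => ?_
    exact not_le.symm
  have h4 := sym_few (Finset.Icc 1 (3 * n)) n
  rw [Nat.card_Icc, Nat.add_sub_cancel] at h4
  have h5 : ((∑ r ∈ Finset.range n, (3 * n).choose r : ℕ) : ℝ)
      ≤ 2 ^ (3 * n) * Real.exp (-((n : ℝ) / 6)) := by
    rcases Nat.eq_zero_or_pos n with rfl | hn
    · simp
    · have h6 := (HOE (3 * n) n (by omega) (Nat.cast_nonneg n)).2
      have hnr : (0 : ℝ) < n := by exact_mod_cast hn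
      have e : ((n : ℝ) ^ 2 / (2 * ((3 * n : ℕ) : ℝ))) = (n : ℝ) / 6 := by
        push_cast
        field_simp
        norm_num
      rw [e] at h6
      refine le_trans ?_ h6
      push_cast
      refine Finset.sum_le_sum_of_subset_of_nonneg ?_ fun _ _ _ => Nat.cast_nonneg _
      intro r hr
      have hr' := Finset.mem_range.1 hr
      rw [Finset.mem_filter, Finset.mem_range]
      refine ⟨by omega, ?_⟩
      have : (r : ℝ) ≤ n := by exact_mod_cast hr'.le
      push_cast
      linarith
  have h7 : ((∑ z : ZMod (3 ^ n), cnt (3 * n) (Set.Ici n) n z : ℕ) : ℝ)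
      + ((∑ r ∈ Finset.range n, (3 * n).choose r : ℕ) : ℝ) ≥ 2 ^ (3 * n) := by
    have : 2 ^ (3 * n) ≤ (∑ z : ZMod (3 ^ n), cnt (3 * n) (Set.Ici n) n z)
        + ∑ r ∈ Finset.range n, (3 * n).choose r := by
      rw [h1]
      omega
    exact_mod_cast this
  push_cast at h7 h5
  linarith

theorem sym (SYR : SyrStmt) (HOE : HoeStmt) : SymStmt := by
  classical
  have hmono : ∀ (n : ℕ) (z : ZMod (3 ^ n)),
      Monotone (fun M : ℕ => (cnt M (Set.Ici n) n z : ℝ) / 2 ^ M) := by
    intro n z
    refine monotone_nat_of_le_succ fun M => ?_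
    rw [div_le_div_iff₀ (by positivity) (by positivity), pow_succ]
    have h : ((2 * cnt M (Set.Ici n) n z : ℕ) : ℝ) ≤ (cnt (M + 1) (Set.Ici n) n z : ℕ) := by
      exact_mod_cast sym_mono n M z
    push_cast at h
    have h2 : (0 : ℝ) < 2 ^ M := by positivity
    nlinarith
  have hW : ∀ (n : ℕ) (z : ZMod (3 ^ n)),
      W n z = 3 ^ n * ((cnt (3 * n) (Set.Ici n) n z : ℝ) / 2 ^ (3 * n)) := by
    intro n z
    unfold W
    ring
  constructor
  · intro n z
    rw [hW n z]
    refine mul_le_mul_of_nonneg_left ?_ (by positivity)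
    exact (hmono n z).ge_of_tendsto (SYR n z) (3 * n)
  · intro n
    have h1 : ∑ z : ZMod (3 ^ n), Sy n z ≤ 1 := by
      have h2 : Tendsto (fun M : ℕ => ∑ z : ZMod (3 ^ n), (cnt M (Set.Ici n) n z : ℝ) / 2 ^ M) atTop
          (𝓝 (∑ z : ZMod (3 ^ n), Sy n z)) :=
        tendsto_finsetSum _ fun z _ => SYR n z
      exact le_of_tendsto' h2 fun M => sym_le_one n M
    have h2 := sym_ge HOE n
    have h3 : ∀ z ∈ (Finset.univ : Finset (ZMod (3 ^ n))), Sy n z - W n z / 3 ^ n
        = Sy n z - (cnt (3 * n) (Set.Ici n) n z : ℝ) / 2 ^ (3 * n) := by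
      intro z _
      rw [hW n z, mul_div_cancel_left₀]
      positivity
    rw [Finset.sum_congr rfl h3, Finset.sum_sub_distrib]
    linarith

end Pool.Agent.WR4.H15
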